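import Pool.Agent.R186.Sub2D

/-!
# A finite two-dimensional subtraction ruleset that is not eventually periodic

For the ruleset `{(0,1), (1,0), (1,1), (2,4), (4,2)}` the outcomes on the diagonal `y = x` are not
eventually periodic.
-/

set_option autoImplicit false

namespace Pool.Agent.Results.MP_1f0dde_co.NonPeriodicRuleset

open Pool.Agent.R186.Sub2D

/-- `IsP S x y`: with the ruleset `S` (normal play) the position `(x, y)` is a P-position, that is,
no move leads to a P-position.  A move subtracts a nonzero vector `s ∈ S` such that both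
coordinates stay nonnegative. -/
def IsP (S : Finset (ℕ × ℕ)) (x y : ℕ) : Prop :=
  ∀ s ∈ S, ∀ (_ : s ≠ (0, 0)) (_ : s.1 ≤ x) (_ : s.2 ≤ y), ¬ IsP S (x - s.1) (y - s.2)
termination_by x + y
decreasing_by
  rename_i h0 h1 h2
  have h3 : ¬ (s.1 = 0 ∧ s.2 = 0) := fun h => h0 (Prod.ext h.1 h.2)
  omega

/-- The line `y = p x / q + m`. -/
def lineAt (p q : ℕ) (m : ℚ) (x : ℤ) : ℚ := p * x / q + m

/-- The outcomes on the line `y = p x / q + m` are eventually periodic: there are `T > 0` and
`x₀ ≥ 0` such that the line has a lattice point at `x + T` whenever it has one at `x`, and the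
outcomes at `(x, y)` and `(x + T, y')` agree for the lattice points of the line with `x₀ ≤ x`. -/
def EventuallyPeriodicOnLine (S : Finset (ℕ × ℕ)) (p q : ℕ) (m : ℚ) : Prop :=
  ∃ T x₀ : ℕ, 0 < T ∧
    (∀ x : ℤ, (∃ y : ℤ, (y : ℚ) = lineAt p q m x) → ∃ y : ℤ, (y : ℚ) = lineAt p q m (x + T)) ∧
    ∀ x y y' : ℕ, x₀ ≤ x → (y : ℚ) = lineAt p q m x → (y' : ℚ) = lineAt p q m (x + T) →
      (IsP S x y ↔ IsP S (x + T) y')

/-- The ruleset `S` is eventually periodic: the outcomes are eventually periodic on every line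
`y = p x / q + m` with integers `p, q > 0` and rational `m` that contains infinitely many lattice
points (with nonnegative coordinates). -/
def EventuallyPeriodic (S : Finset (ℕ × ℕ)) : Prop :=
  ∀ p q : ℕ, 0 < p → 0 < q → ∀ m : ℚ, {x : ℕ | ∃ y : ℕ, (y : ℚ) = lineAt p q m x}.Infinite →
    EventuallyPeriodicOnLine S p q m

/-- The ruleset. -/
def rules : Finset (ℕ × ℕ) := {(0, 1), (1, 0), (1, 1), (2, 4), (4, 2)}

theorem isP_rules (x y : ℕ) : IsP rules x y ↔
    (1 ≤ y → ¬ IsP rules x (y - 1)) ∧ (1 ≤ x → ¬ IsP rules (x - 1) y) ∧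
      (1 ≤ x → 1 ≤ y → ¬ IsP rules (x - 1) (y - 1)) ∧
      (2 ≤ x → 4 ≤ y → ¬ IsP rules (x - 2) (y - 4)) ∧
      (4 ≤ x → 2 ≤ y → ¬ IsP rules (x - 4) (y - 2)) := by
  rw [IsP]
  constructor
  · intro h
    refine ⟨fun h2 => ?_, fun h1 => ?_, fun h1 h2 => ?_, fun h1 h2 => ?_, fun h1 h2 => ?_⟩
    · simpa using h (0, 1) (by decide) (by decide) (Nat.zero_le _) h2
    · simpa using h (1, 0) (by decide) (by decide) h1 (Nat.zero_le _)
    · exact h (1, 1) (by decide) (by decide) h1 h2
    · exact h (2, 4) (by decide) (by decide) h1 h2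
    · exact h (4, 2) (by decide) (by decide) h1 h2
  · rintro ⟨a1, a2, a3, a4, a5⟩ s hs h0 h1 h2
    simp only [rules, Finset.mem_insert, Finset.mem_singleton] at hs
    rcases hs with rfl | rfl | rfl | rfl | rfl
    · simpa using a1 h2
    · simpa using a2 h1
    · exact a3 h1 h2
    · exact a4 h1 h2
    · exact a5 h1 h2

theorem isP_symm (n : ℕ) : ∀ x y : ℕ, x + y = n → (IsP rules x y ↔ IsP rules y x) := by
  induction n using Nat.strong_induction_on with
  | _ n ih =>
    intro x y hn
    rw [isP_rules x y, isP_rules y x]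
    have e1 : 1 ≤ y → (IsP rules x (y - 1) ↔ IsP rules (y - 1) x) := fun h =>
      ih (n - 1) (by omega) _ _ (by omega)
    have e2 : 1 ≤ x → (IsP rules (x - 1) y ↔ IsP rules y (x - 1)) := fun h =>
      ih (n - 1) (by omega) _ _ (by omega)
    have e3 : 1 ≤ x → 1 ≤ y → (IsP rules (x - 1) (y - 1) ↔ IsP rules (y - 1) (x - 1)) :=
      fun h h' => ih (n - 2) (by omega) _ _ (by omega)
    have e4 : 2 ≤ x → 4 ≤ y → (IsP rules (x - 2) (y - 4) ↔ IsP rules (y - 4) (x - 2)) :=
      fun h h' => ih (n - 6) (by omega) _ _ (by omega)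
    have e5 : 4 ≤ x → 2 ≤ y → (IsP rules (x - 4) (y - 2) ↔ IsP rules (y - 2) (x - 4)) :=
      fun h h' => ih (n - 6) (by omega) _ _ (by omega)
    constructor
    · rintro ⟨a1, a2, a3, a4, a5⟩
      exact ⟨fun h => (not_congr (e2 h)).1 (a2 h), fun h => (not_congr (e1 h)).1 (a1 h),
        fun h h' => (not_congr (e3 h' h)).1 (a3 h' h), fun h h' => (not_congr (e5 h' h)).1 (a5 h' h),
        fun h h' => (not_congr (e4 h' h)).1 (a4 h' h)⟩
    · rintro ⟨a1, a2, a3, a4, a5⟩
      exact ⟨fun h => (not_congr (e1 h)).2 (a2 h), fun h => (not_congr (e2 h)).2 (a1 h),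
        fun h h' => (not_congr (e3 h h')).2 (a3 h' h), fun h h' => (not_congr (e4 h h')).2 (a5 h' h),
        fun h h' => (not_congr (e5 h h')).2 (a4 h' h)⟩

/-! ### The first rows -/

/-- the outcomes for `x + y ≤ 17` -/
def tb (x y : ℕ) : Bool :=
  Nat.testBit (([87381, 0, 174757, 16, 137, 174628, 257, 87188, 65,
    4644, 84097, 1060, 86657, 36, 152705, 65572, 38017, 147492] : List ℕ).getD y 0) x

/-- the rule for the table -/
def tbOk : Bool :=
  (List.range 18).all fun x => (List.range 18).all fun y => Nat.blt 17 (x + y) ||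
    (tb x y == (((Nat.blt y 1 || !tb x (y - 1)) && (Nat.blt x 1 || !tb (x - 1) y)) &&
      ((Nat.blt x 1 || Nat.blt y 1 || !tb (x - 1) (y - 1)) &&
      ((Nat.blt x 2 || Nat.blt y 4 || !tb (x - 2) (y - 4)) &&
      (Nat.blt x 4 || Nat.blt y 2 || !tb (x - 4) (y - 2))))))

theorem tbOk_true : tbOk = true := by decide +kernel

theorem tb_rule (x y : ℕ) (h : x + y ≤ 17) : tb x y = true ↔
    (1 ≤ y → ¬ tb x (y - 1) = true) ∧ (1 ≤ x → ¬ tb (x - 1) y = true) ∧
      (1 ≤ x → 1 ≤ y → ¬ tb (x - 1) (y - 1) = true) ∧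
      (2 ≤ x → 4 ≤ y → ¬ tb (x - 2) (y - 4) = true) ∧
      (4 ≤ x → 2 ≤ y → ¬ tb (x - 4) (y - 2) = true) := by
  have h1 := tbOk_true
  unfold tbOk at h1
  rw [List.all_eq_true] at h1
  have h2 := h1 x (List.mem_range.2 (by omega))
  rw [List.all_eq_true] at h2
  have h3 := h2 y (List.mem_range.2 (by omega))
  have h4 : Nat.blt 17 (x + y) = false := by
    cases h5 : Nat.blt 17 (x + y)
    · rfl
    · rw [Nat.blt_eq] at h5; omega
  rw [h4, Bool.false_or, beq_iff_eq] at h3
  rw [h3]
  simp only [Bool.and_eq_true, Bool.or_eq_true, Bool.not_eq_true', Nat.blt_eq, Bool.not_eq_true]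
  have c : ∀ (n m : ℕ) (p : Prop), (n < m ∨ p) ↔ (m ≤ n → p) := fun n m p =>
    ⟨fun h h' => h.resolve_left (by omega), fun h => (lt_or_ge n m).imp_right h⟩
  have c2 : ∀ (n m n' m' : ℕ) (p : Prop), ((n < m ∨ n' < m') ∨ p) ↔ (m ≤ n → m' ≤ n' → p) :=
    fun n m n' m' p => by rw [or_assoc, c, c]
  rw [c, c, c2, c2, c2, and_assoc]

theorem isP_tb (n : ℕ) : ∀ x y : ℕ, x + y = n → n ≤ 17 → (IsP rules x y ↔ tb x y = true) := by
  induction n using Nat.strong_induction_on with
  | _ n ih =>
    intro x y hn h17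
    rw [isP_rules x y, tb_rule x y (by omega)]
    have e1 : 1 ≤ y → (IsP rules x (y - 1) ↔ tb x (y - 1) = true) := fun h =>
      ih (n - 1) (by omega) _ _ (by omega) (by omega)
    have e2 : 1 ≤ x → (IsP rules (x - 1) y ↔ tb (x - 1) y = true) := fun h =>
      ih (n - 1) (by omega) _ _ (by omega) (by omega)
    have e3 : 1 ≤ x → 1 ≤ y → (IsP rules (x - 1) (y - 1) ↔ tb (x - 1) (y - 1) = true) :=
      fun h h' => ih (n - 2) (by omega) _ _ (by omega) (by omega)
    have e4 : 2 ≤ x → 4 ≤ y → (IsP rules (x - 2) (y - 4) ↔ tb (x - 2) (y - 4) = true) :=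
      fun h h' => ih (n - 6) (by omega) _ _ (by omega) (by omega)
    have e5 : 4 ≤ x → 2 ≤ y → (IsP rules (x - 4) (y - 2) ↔ tb (x - 4) (y - 2) = true) :=
      fun h h' => ih (n - 6) (by omega) _ _ (by omega) (by omega)
    exact and_congr (imp_congr_right fun h => not_congr (e1 h))
      (and_congr (imp_congr_right fun h => not_congr (e2 h))
        (and_congr (imp_congr_right fun h => imp_congr_right fun h' => not_congr (e3 h h'))
          (and_congr (imp_congr_right fun h => imp_congr_right fun h' => not_congr (e4 h h'))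
            (imp_congr_right fun h => imp_congr_right fun h' => not_congr (e5 h h')))))

instance (a b e : ℤ) (r i : ℕ) : Decidable (near a b e r i) := by
  unfold near; split <;> infer_instance

instance (E : ℤ) (r i : ℕ) : Decidable (far E r i) := by
  unfold far; split <;> infer_instance

instance (j a e : ℤ) (r i : ℕ) : Decidable (isNear j a e r i) := by
  unfold isNear; infer_instance

instance (j a e : ℤ) (r i : ℕ) : Decidable (G j a e r i) := by
  unfold G; infer_instance

instance (j t d : ℤ) : Decidable (F j t d) := by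
  unfold F; infer_instance

def tbF : Bool :=
  (List.range 18).all fun x => (List.range 18).all fun y =>
    (Nat.blt x y || (Nat.blt 17 (x + y) || Nat.blt (x + y) 12)) ||
      (tb x y == decide (F 0 ((x : ℤ) + y - 18) ((x : ℤ) - y)))

theorem tbF_true : tbF = true := by decide +kernel

theorem tb_F (x y : ℕ) (h1 : y ≤ x) (h2 : x + y ≤ 17) (h3 : 12 ≤ x + y) :
    tb x y = true ↔ F 0 ((x : ℤ) + y - 18) ((x : ℤ) - y) := by
  have h4 := tbF_true
  unfold tbF at h4
  rw [List.all_eq_true] at h4
  have h5 := h4 x (List.mem_range.2 (by omega))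
  rw [List.all_eq_true] at h5
  have h6 := h5 y (List.mem_range.2 (by omega))
  rw [Bool.or_eq_true, Bool.or_eq_true, Bool.or_eq_true, Nat.blt_eq, Nat.blt_eq, Nat.blt_eq,
    beq_iff_eq] at h6
  rcases h6 with h6 | h6
  · omega
  · rw [h6, decide_eq_true_iff]

theorem perm5 {p a b c d e : Prop} (h : p ↔ a ∧ b ∧ c ∧ d ∧ e) : p ↔ b ∧ a ∧ c ∧ e ∧ d := by
  rw [h]
  constructor
  · rintro ⟨h1, h2, h3, h4, h5⟩; exact ⟨h2, h1, h3, h5, h4⟩
  · rintro ⟨h2, h1, h3, h5, h4⟩; exact ⟨h1, h2, h3, h4, h5⟩

theorem F_rule_abs (j t D : ℤ) (hj : 0 ≤ j) (ht : 0 ≤ t) (htL : t < 20 * j + 34) (hD : 0 ≤ D)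
    (hpar : (t - D) % 2 = 0) :
    F j t D ↔ ¬ F j (t - 1) |D + 1| ∧ ¬ F j (t - 1) |D - 1| ∧ ¬ F j (t - 2) |D| ∧
      ¬ F j (t - 6) |D + 2| ∧ ¬ F j (t - 6) |D - 2| := by
  rw [abs_of_nonneg (show (0 : ℤ) ≤ D + 1 by omega), abs_of_nonneg hD,
    abs_of_nonneg (show (0 : ℤ) ≤ D + 2 by omega)]
  obtain rfl | rfl | h2 : D = 0 ∨ D = 1 ∨ 2 ≤ D := by omega
  · have e1 : |(0 : ℤ) - 1| = 1 := by norm_num
    have e2 : |(0 : ℤ) - 2| = 2 := by norm_num
    rw [e1, e2]
    exact perm5 (F_rule0 j t hj ht htL hpar)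
  · have e1 : |(1 : ℤ) - 1| = 0 := by norm_num
    have e2 : |(1 : ℤ) - 2| = 1 := by norm_num
    rw [e1, e2]
    exact perm5 (F_rule1 j t hj ht htL hpar)
  · rw [abs_of_nonneg (show (0 : ℤ) ≤ D - 1 by omega),
      abs_of_nonneg (show (0 : ℤ) ≤ D - 2 by omega)]
    exact perm5 (F_rule j t D hj ht htL h2 hpar)

/-! ### The outcomes for `x + y ≥ 12` -/

theorem main (n : ℕ) : ∀ (j : ℕ) (t : ℤ) (x y : ℕ), -6 ≤ t → t < 20 * (j : ℤ) + 34 →
    (x : ℤ) + y = 10 * ((j : ℤ) * j) + 24 * j + 18 + t → x + y = n → y ≤ x →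
    (IsP rules x y ↔ F j t ((x : ℤ) - y)) := by
  induction n using Nat.strong_induction_on with
  | _ n ih =>
    have pos : ∀ (j : ℕ) (t : ℤ) (x y : ℕ), 0 ≤ t → t < 20 * (j : ℤ) + 34 →
        (x : ℤ) + y = 10 * ((j : ℤ) * j) + 24 * j + 18 + t → x + y = n → y ≤ x →
        (IsP rules x y ↔ F j t ((x : ℤ) - y)) := by
      intro j t x y ht htL hs hn hyx
      have hq0 : 0 ≤ (j : ℤ) * j := by positivity
      generalize hq : (j : ℤ) * j = q at hs hq0
      -- the neighbours
      have nb : ∀ (k : ℤ) (u v : ℕ), 1 ≤ k → k ≤ 6 → (u : ℤ) + v + k = x + y →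
          (IsP rules u v ↔ F j (t - k) |(u : ℤ) - v|) := by
        intro k u v hk1 hk6 huv
        rcases le_total v u with h | h
        · rw [abs_of_nonneg (by omega)]
          exact ih (u + v) (by omega) j (t - k) u v (by omega) (by omega) (by rw [hq]; omega) rfl h
        · rw [isP_symm (u + v) u v rfl, abs_of_nonpos (by omega), neg_sub]
          exact ih (v + u) (by omega) j (t - k) v u (by omega) (by omega) (by rw [hq]; omega) rfl h
      rw [isP_rules x y]
      rcases Nat.lt_or_ge y 4 with hy | hy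
      · -- near the axis
        have far' : ∀ (k : ℤ) (u v : ℕ), 0 ≤ k → k ≤ 6 → (u : ℤ) + v + k = x + y →
            k + 2 * (v : ℤ) ≤ 10 → (F j (t - k) |(u : ℤ) - v| ↔
              ((v : ℤ) % 5 = 0 ∧ ((u : ℤ) - v) % 2 = 0) ∨ ((v : ℤ) % 5 = 2 ∧ ((u : ℤ) - v) % 2 = 1)) := by
          intro k u v hk0 hk6 huv hv
          rw [abs_of_nonneg (by omega)]
          exact F_far j (t - k) _ q v (by omega) (by omega)
        have f0 := far' 0 x y (by norm_num) (by norm_num) (by ring) (by omega)
        rw [abs_of_nonneg (by omega), sub_zero] at f0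
        rw [f0]
        interval_cases y
        · have n2 := (nb 1 (x - 1) 0 (by norm_num) (by norm_num) (by omega)).trans
            (far' 1 (x - 1) 0 (by norm_num) (by norm_num) (by omega) (by norm_num))
          rw [n2]
          constructor
          · rintro ⟨-, h, -⟩
            have := h (by omega)
            omega
          · intro h
            refine ⟨fun h' => absurd h' (by norm_num), fun _ => by omega,
              fun _ h' => absurd h' (by norm_num), fun _ h' => absurd h' (by norm_num),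
              fun _ h' => absurd h' (by norm_num)⟩
        · have n1 := (nb 1 x 0 (by norm_num) (by norm_num) (by omega)).trans
            (far' 1 x 0 (by norm_num) (by norm_num) (by omega) (by norm_num))
          have n3 := (nb 2 (x - 1) 0 (by norm_num) (by norm_num) (by omega)).trans
            (far' 2 (x - 1) 0 (by norm_num) (by norm_num) (by omega) (by norm_num))
          simp only [Nat.sub_self]
          rw [n1, n3]
          constructor
          · rintro ⟨h1, -, h3, -⟩
            have a1 := h1 le_rfl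
            have a3 := h3 (by omega) le_rfl
            omega
          · intro h
            omega
        · have n1 := (nb 1 x 1 (by norm_num) (by norm_num) (by omega)).trans
            (far' 1 x 1 (by norm_num) (by norm_num) (by omega) (by norm_num))
          have n2 := (nb 1 (x - 1) 2 (by norm_num) (by norm_num) (by omega)).trans
            (far' 1 (x - 1) 2 (by norm_num) (by norm_num) (by omega) (by norm_num))
          have n3 := (nb 2 (x - 1) 1 (by norm_num) (by norm_num) (by omega)).trans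
            (far' 2 (x - 1) 1 (by norm_num) (by norm_num) (by omega) (by norm_num))
          have n5 := (nb 6 (x - 4) 0 (by norm_num) (by norm_num) (by omega)).trans
            (far' 6 (x - 4) 0 (by norm_num) (by norm_num) (by omega) (by norm_num))
          simp only [Nat.sub_self, show 2 - 1 = 1 from rfl]
          rw [n1, n2, n3, n5]
          constructor
          · rintro ⟨-, h2, -, -, h5⟩
            have a2 := h2 (by omega)
            have a5 := h5 (by omega) le_rfl
            omega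
          · intro h
            refine ⟨fun _ => by omega, fun _ => by omega, fun _ _ => by omega,
              fun _ h' => absurd h' (by norm_num), fun _ _ => by omega⟩
        · have n1 := (nb 1 x 2 (by norm_num) (by norm_num) (by omega)).trans
            (far' 1 x 2 (by norm_num) (by norm_num) (by omega) (by norm_num))
          have n3 := (nb 2 (x - 1) 2 (by norm_num) (by norm_num) (by omega)).trans
            (far' 2 (x - 1) 2 (by norm_num) (by norm_num) (by omega) (by norm_num))
          simp only [show 3 - 1 = 2 from rfl]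
          rw [n1, n3]
          constructor
          · rintro ⟨h1, -, h3, -⟩
            have a1 := h1 (by norm_num)
            have a3 := h3 (by omega) (by norm_num)
            omega
          · intro h
            omega
      · have n1 := nb 1 x (y - 1) (by norm_num) (by norm_num) (by omega)
        have n2 := nb 1 (x - 1) y (by norm_num) (by norm_num) (by omega)
        have n3 := nb 2 (x - 1) (y - 1) (by norm_num) (by norm_num) (by omega)
        have n4 := nb 6 (x - 2) (y - 4) (by norm_num) (by norm_num) (by omega)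
        have n5 := nb 6 (x - 4) (y - 2) (by norm_num) (by norm_num) (by omega)
        have c1 : (((y - 1 : ℕ) : ℤ)) = y - 1 := by omega
        have c2 : (((x - 1 : ℕ) : ℤ)) = x - 1 := by omega
        have c3 : (((x - 2 : ℕ) : ℤ)) = x - 2 := by omega
        have c4 : (((y - 4 : ℕ) : ℤ)) = y - 4 := by omega
        have c5 : (((x - 4 : ℕ) : ℤ)) = x - 4 := by omega
        have c6 : (((y - 2 : ℕ) : ℤ)) = y - 2 := by omega
        have key : F j t ((x : ℤ) - y) ↔ ¬ F j (t - 1) |(x : ℤ) - ((y - 1 : ℕ) : ℤ)| ∧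
            ¬ F j (t - 1) |((x - 1 : ℕ) : ℤ) - (y : ℤ)| ∧
            ¬ F j (t - 2) |((x - 1 : ℕ) : ℤ) - ((y - 1 : ℕ) : ℤ)| ∧
            ¬ F j (t - 6) |((x - 2 : ℕ) : ℤ) - ((y - 4 : ℕ) : ℤ)| ∧
            ¬ F j (t - 6) |((x - 4 : ℕ) : ℤ) - ((y - 2 : ℕ) : ℤ)| := by
          rw [c1, c2, c3, c4, c5, c6]
          have g1 : (x : ℤ) - (y - 1) = (x - y) + 1 := by ring
          have g2 : (x : ℤ) - 1 - y = (x - y) - 1 := by ring
          have g3 : (x : ℤ) - 1 - (y - 1) = x - y := by ring
          have g4 : (x : ℤ) - 2 - (y - 4) = (x - y) + 2 := by ring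
          have g5 : (x : ℤ) - 4 - (y - 2) = (x - y) - 2 := by ring
          rw [g1, g2, g3, g4, g5]
          exact F_rule_abs j t _ (by omega) ht htL (by omega) (by omega)
        rw [key, ← n1, ← n2, ← n3, ← n4, ← n5]
        constructor
        · rintro ⟨a1, a2, a3, a4, a5⟩
          exact ⟨a1 (by omega), a2 (by omega), a3 (by omega) (by omega), a4 (by omega) (by omega),
            a5 (by omega) (by omega)⟩
        · rintro ⟨a1, a2, a3, a4, a5⟩
          exact ⟨fun _ => a1, fun _ => a2, fun _ _ => a3, fun _ _ => a4, fun _ _ => a5⟩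
    intro j t x y ht htL hs hn hyx
    rcases le_or_gt 0 t with h | h
    · exact pos j t x y h htL hs hn hyx
    · rcases Nat.eq_zero_or_pos j with rfl | hj
      · have hs' : (x : ℤ) + y = 18 + t := by simpa using hs
        have e : t = (x : ℤ) + y - 18 := by omega
        rw [isP_tb n x y hn (by omega), e]
        exact tb_F x y hyx (by omega) (by omega)
      · obtain ⟨i, rfl⟩ : ∃ i, j = i + 1 := ⟨j - 1, by omega⟩
        have hs2 : (x : ℤ) + y = 10 * ((i : ℤ) * i) + 24 * i + 18 + (20 * ((i : ℤ) + 1) + 14 + t) := by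
          rw [hs]; push_cast; ring
        have h1 := pos i (20 * ((i : ℤ) + 1) + 14 + t) x y (by omega) (by omega) hs2 hn hyx
        have h2 := F_shift ((i + 1 : ℕ) : ℤ) t ((x : ℤ) - y) (by omega) ht h (by omega) (by
          push_cast at hs
          have h4 : ∃ z : ℤ, 10 * (((i : ℤ) + 1) * (i + 1)) + 24 * (i + 1) + 18 = 2 * z :=
            ⟨5 * (((i : ℤ) + 1) * (i + 1)) + 12 * (i + 1) + 9, by ring⟩
          obtain ⟨z, hz⟩ := h4
          rw [hz] at hs
          omega)
        rw [h1, h2]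
        have e1 : ((i + 1 : ℕ) : ℤ) - 1 = i := by push_cast; ring
        have e2 : 20 * ((i + 1 : ℕ) : ℤ) + 14 + t = 20 * ((i : ℤ) + 1) + 14 + t := by push_cast; ring
        rw [e1, e2]

/-- the outcomes on the diagonal -/
theorem diag (j i : ℕ) (hi : i < 10 * j + 17) :
    IsP rules (5 * (j * j) + 12 * j + 9 + i) (5 * (j * j) + 12 * j + 9 + i) ↔
      i % 5 = 0 ∨ i % 5 = 3 := by
  rw [main _ j (2 * i) _ _ (by omega) (by omega) (by push_cast; ring) rfl le_rfl, sub_self]
  obtain ⟨a, c, hc, rfl⟩ : ∃ a c : ℕ, c < 5 ∧ i = 5 * a + c := ⟨i / 5, i % 5, by omega, by omega⟩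
  have e : (5 * a + c) % 5 = c := by omega
  rw [e, F_eq j (2 * ((5 * a + c : ℕ) : ℤ)) 0 a 0 (2 * c) 0 (by omega) (by norm_num)
    (by push_cast; ring) (by norm_num)]
  interval_cases c <;> (simp [G, isNear, near]; try omega)

theorem lineAt_diag (x : ℤ) : lineAt 1 1 0 x = x := by
  simp [lineAt]

theorem not_periodic : ¬ EventuallyPeriodicOnLine rules 1 1 0 := by
  rintro ⟨T, x₀, hT, -, h⟩
  have h' : ∀ x : ℕ, x₀ ≤ x → (IsP rules x x ↔ IsP rules (x + T) (x + T)) := by
    intro x hx
    refine h x x (x + T) hx ?_ ?_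
    · rw [lineAt_diag]; push_cast; rfl
    · rw [lineAt_diag]; push_cast; rfl
  obtain ⟨j, hj⟩ : ∃ j : ℕ, x₀ + T + 5 ≤ j := ⟨_, le_rfl⟩
  have hX : x₀ ≤ 5 * (j * j) + 12 * j + 9 := by nlinarith
  -- `T` is a multiple of `5`
  have a0 := h' (5 * (j * j) + 12 * j + 9 + 0) (by omega)
  rw [diag j 0 (by omega), show 5 * (j * j) + 12 * j + 9 + 0 + T = 5 * (j * j) + 12 * j + 9 + T by ring,
    diag j T (by omega)] at a0
  have a3 := h' (5 * (j * j) + 12 * j + 9 + 3) (by omega)
  rw [diag j 3 (by omega), show 5 * (j * j) + 12 * j + 9 + 3 + T =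
    5 * (j * j) + 12 * j + 9 + (3 + T) by ring, diag j (3 + T) (by omega)] at a3
  have hT5 : T % 5 = 0 := by omega
  -- the start of the next block
  have b := h' (5 * (j * j) + 12 * j + 9 + (10 * j + 17 - T)) (by omega)
  have e : 5 * (j * j) + 12 * j + 9 + (10 * j + 17 - T) + T =
      5 * ((j + 1) * (j + 1)) + 12 * (j + 1) + 9 + 0 := by
    have : 5 * ((j + 1) * (j + 1)) + 12 * (j + 1) + 9 + 0 = 5 * (j * j) + 12 * j + 9 + (10 * j + 17) := by
      ring
    rw [this]
    omega
  rw [e, diag j (10 * j + 17 - T) (by omega), diag (j + 1) 0 (by omega)] at b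
  omega

/-- **Theorem.** The finite two-dimensional ruleset `{(0,1), (1,0), (1,1), (2,4), (4,2)}` is not
eventually periodic: the outcomes on the line `y = x` are not eventually periodic. -/
theorem result : (0, 0) ∉ rules ∧ ¬ EventuallyPeriodicOnLine rules 1 1 0 ∧
    ¬ EventuallyPeriodic rules := by
  refine ⟨by decide, not_periodic, fun h => not_periodic (h 1 1 one_pos one_pos 0 ?_)⟩
  have : {x : ℕ | ∃ y : ℕ, (y : ℚ) = lineAt 1 1 0 x} = Set.univ := by
    ext x
    simp only [Set.mem_univ, iff_true]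
    exact ⟨x, by rw [lineAt_diag]; push_cast; rfl⟩
  rw [this]
  exact Set.infinite_univ

end Pool.Agent.Results.MP_1f0dde_co.NonPeriodicRuleset
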